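import Pool.Agent.H87.YA.Fin

/-!
# Yamada's inequality holds outside a thin set of primes `q`, uniformly in `p`
-/

namespace Pool.Agent.Results.MP_25136f_nt.UniformExceptions

open Pool.Agent.H87.YA

/-- There is a constant `C` such that for every prime `p` and every `x >= 2` at most
`C min(x ^ (2/5), p) (log x / log p + log p / log x)` primes `q <= x` violate Yamada's inequality
(or the stronger inequality without the two double logarithms). -/
theorem result : ∃ C : ℝ, 0 < C ∧ ∀ p : ℕ, p.Prime → ∀ x : ℝ, 2 ≤ x →
    (Exc p x).Finite ∧ ((Exc p x).ncard : ℝ) ≤ C * min (x ^ (2 / 5 : ℝ)) (p : ℝ) *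
      (Real.log x / Real.log p + Real.log p / Real.log x) :=
  main

end Pool.Agent.Results.MP_25136f_nt.UniformExceptions
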