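import Pool.Agent.H2.N3.Final

/-!
# Yamada's inequality for `q = 3` holds for a positive proportion of the primes `p`
-/

set_option autoImplicit false

namespace Pool.Agent.Results.MP_25136f_nt.YamadaThree

open Finset

private theorem val_one {p : ℕ} (hp : p.Prime) (h2 : 3 < p)
    (hw : ¬ p ^ 2 ∣ 3 ^ (p - 1) - 1) : padicValNat p (3 ^ (p - 1) - 1) = 1 := by
  have := Fact.mk hp
  have hcop : Nat.Coprime 3 p := (Nat.coprime_primes Nat.prime_three hp).2 (by omega)
  have h1 : 3 ^ (p - 1) ≡ 1 [MOD p] := by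
    have := Nat.ModEq.pow_totient hcop
    rwa [Nat.totient_prime hp] at this
  have hpos : 1 ≤ 3 ^ (p - 1) := Nat.one_le_pow _ _ (by omega)
  have hd : p ∣ 3 ^ (p - 1) - 1 := (Nat.modEq_iff_dvd' hpos).1 h1.symm
  have hne : 3 ^ (p - 1) - 1 ≠ 0 := by
    have : 1 < 3 ^ (p - 1) := Nat.one_lt_pow (by omega) (by omega)
    omega
  have h3 : 1 ≤ padicValNat p (3 ^ (p - 1) - 1) := by
    rw [← padicValNat_dvd_iff_le hne, pow_one]; exact hd
  have h4 : ¬ 2 ≤ padicValNat p (3 ^ (p - 1) - 1) := by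
    rw [← padicValNat_dvd_iff_le hne]; exact hw
  omega

private theorem loglog {p : ℕ} (h2 : 2 < p) : 0 ≤ Real.log (Real.log p) := by
  have hp3 : (3 : ℝ) ≤ p := by exact_mod_cast h2
  refine Real.log_nonneg ?_
  rw [Real.le_log_iff_exp_le (by linarith)]
  have := Real.exp_one_lt_d9
  linarith

private theorem ineq {p : ℕ} (h2 : 2 < p) :
    -Real.log p ≤ Real.log 3 + Real.log (Real.log 3) + Real.log (Real.log p) := by
  have h3 := loglog h2
  have h4 := loglog (show 2 < 3 by norm_num)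
  have h0 : 0 ≤ Real.log p := Real.log_natCast_nonneg p
  have h5 : 0 ≤ Real.log 3 := Real.log_nonneg (by norm_num)
  push_cast at h4
  linarith

/-- For every large `X` at least `(1 / 1350) X / log X` primes `p ≤ X` have `u_p(3) = 1`, where
`u_p(3) = v_p(3^(p-1) - 1)`; these primes satisfy Yamada's inequality with `q = 3`. -/
theorem result : ∃ X₀ : ℕ, ∀ X : ℕ, X₀ ≤ X →
    1 / 1350 * (X : ℝ) / Real.log X ≤
      (((Icc 1 X).filter (fun p : ℕ => p.Prime ∧ padicValNat p (3 ^ (p - 1) - 1) = 1 ∧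
        ((padicValNat p (3 ^ (p - 1) - 1) : ℝ) - 2) * Real.log p ≤
          Real.log 3 + Real.log (Real.log 3) + Real.log (Real.log p))).card : ℝ) := by
  classical
  obtain ⟨m₀, h⟩ := Pool.Agent.H2.N3.non_w3_mass
  refine ⟨54 * 3 ^ m₀, fun X hX => ?_⟩
  refine Pool.Agent.H2.N3.count_end
    (fun p => ¬ p ^ 2 ∣ 3 ^ (p - 1) - 1 ∧ 3 < p) m₀ (fun m hm S hS => ?_) X hX _
    (fun p hp hpX hq => ?_)
  · have h1 := h m hm
    push_cast
    refine h1.trans (Finset.sum_le_sum_of_subset_of_nonneg (fun p hp => ?_) fun p _ _ =>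
      Real.log_natCast_nonneg p)
    rw [mem_filter, mem_Ioc] at hp
    rw [mem_filter]
    have hm1 : 1 ≤ 3 ^ m := Nat.one_le_pow _ _ (by norm_num)
    exact ⟨hS p hp.2.1 hp.1.1 hp.1.2 ⟨hp.2.2, by omega⟩, hp.2.1, hp.1.1, hp.1.2⟩
  · have hv := val_one hp hq.2 hq.1
    rw [mem_filter, mem_Icc]
    refine ⟨⟨hp.one_lt.le, hpX⟩, hp, hv, ?_⟩
    rw [hv]
    have := ineq (p := p) (by omega)
    push_cast
    linarith

end Pool.Agent.Results.MP_25136f_nt.YamadaThree
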