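import Pool.Agent.H2.HF.LowB
import Pool.Agent.H80.HF.Main

/-!
# Yamada's inequality for `q = 2` holds for at least three tenths of the primes `p`
-/

set_option autoImplicit false

namespace Pool.Agent.Results.MP_25136f_nt.YamadaTwo

open Finset

private theorem val_one {p : ℕ} (hp : p.Prime) (h2 : 2 < p)
    (hw : ¬ p ^ 2 ∣ 2 ^ (p - 1) - 1) : padicValNat p (2 ^ (p - 1) - 1) = 1 := by
  haveI := Fact.mk hp
  have hcop : Nat.Coprime 2 p := (Nat.coprime_primes Nat.prime_two hp).2 (by omega)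
  have h1 : 2 ^ (p - 1) ≡ 1 [MOD p] := by
    have := Nat.ModEq.pow_totient hcop
    rwa [Nat.totient_prime hp] at this
  have hpos : 1 ≤ 2 ^ (p - 1) := Nat.one_le_two_pow
  have hd : p ∣ 2 ^ (p - 1) - 1 := (Nat.modEq_iff_dvd' hpos).1 h1.symm
  have hne : 2 ^ (p - 1) - 1 ≠ 0 := by
    have : 1 < 2 ^ (p - 1) := Nat.one_lt_two_pow (by omega)
    omega
  have h3 : 1 ≤ padicValNat p (2 ^ (p - 1) - 1) := by
    rw [← padicValNat_dvd_iff_le hne, pow_one]; exact hd
  have h4 : ¬ 2 ≤ padicValNat p (2 ^ (p - 1) - 1) := by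
    rw [← padicValNat_dvd_iff_le hne]; exact hw
  omega

private theorem ineq {p : ℕ} (h2 : 2 < p) :
    -Real.log p ≤ Real.log 2 + Real.log (Real.log 2) + Real.log (Real.log p) := by
  have hp3 : (3 : ℝ) ≤ p := by exact_mod_cast h2
  have h3 : (1 : ℝ) ≤ Real.log p := by
    rw [Real.le_log_iff_exp_le (by linarith)]
    have := Real.exp_one_lt_d9
    linarith
  have h4 : 0 ≤ Real.log (Real.log p) := Real.log_nonneg h3
  have h5 := Real.log_two_gt_d9
  have h6 : Real.log (1 / 2) ≤ Real.log (Real.log 2) :=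
    Real.log_le_log (by norm_num) (by linarith)
  have h7 : Real.log (1 / 2) = -Real.log 2 := by
    rw [one_div, Real.log_inv]
  linarith

/-- For every large `X` at least `(3 / 10) X / log X` primes `p ≤ X` have `u_p(2) = 1`, where
`u_p(2) = v_p(2^(p-1) - 1)`; these primes satisfy Yamada's inequality with `q = 2`. -/
theorem result : ∃ X₀ : ℕ, ∀ X : ℕ, X₀ ≤ X →
    3 / 10 * (X : ℝ) / Real.log X ≤
      (((Icc 1 X).filter (fun p : ℕ => p.Prime ∧ padicValNat p (2 ^ (p - 1) - 1) = 1 ∧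
        ((padicValNat p (2 ^ (p - 1) - 1) : ℝ) - 2) * Real.log p ≤
          Real.log 2 + Real.log (Real.log 2) + Real.log (Real.log p))).card : ℝ) := by
  classical
  obtain ⟨X₀, h⟩ := Pool.Agent.H2.HF.low_NW Pool.Agent.H80.HF.main_ineq
  refine ⟨X₀, fun X hX => (h X hX).trans ?_⟩
  rw [← Set.ncard_coe_finset]
  refine Nat.cast_le.2 (Set.ncard_le_ncard ?_ (Finset.finite_toSet _))
  rintro p ⟨⟨hp, h5, hw⟩, hpX⟩
  have hv := val_one hp (by omega) hw
  rw [mem_coe, mem_filter, mem_Icc]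
  refine ⟨⟨hp.one_lt.le, hpX⟩, hp, hv, ?_⟩
  rw [hv]
  have := ineq (p := p) (by omega)
  push_cast
  linarith

end Pool.Agent.Results.MP_25136f_nt.YamadaTwo
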